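import Pool.Agent.helper69.AD.GS6

/-!
XE1: extension of an order preserving map between dense subsets of the circle.
-/

open scoped MatrixGroups LinearAlgebra.Projectivization
open Matrix UpperHalfPlane

namespace AdSBend

/-- strictly increasing maps between dense subsets of the line extend -/
lemma XE1_real (D : Set ℝ) (g : ℝ → ℝ) (hg : ∀ s ∈ D, ∀ t ∈ D, s < t → g s < g t)
    (hD : ∀ s t : ℝ, s < t → ∃ d ∈ D, s < d ∧ d < t)
    (hR : ∀ s t : ℝ, s < t → ∃ d ∈ D, s < g d ∧ g d < t) :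
    ∃ G : ℝ → ℝ, StrictMono G ∧ Function.Surjective G ∧ ∀ d ∈ D, G d = g d := by
  have hgle : ∀ s ∈ D, ∀ t ∈ D, s ≤ t → g s ≤ g t := by
    intro s hs t ht hst
    rcases hst.lt_or_eq with h | h
    · exact (hg s hs t ht h).le
    · rw [h]
  have hglt : ∀ s ∈ D, ∀ t ∈ D, g s < g t → s < t := by
    intro s hs t ht hst
    by_contra hc
    exact absurd hst (not_lt.mpr (hgle t ht s hs (not_lt.mp hc)))
  let A : ℝ → Set ℝ := fun t => g '' (D ∩ Set.Iic t)
  have hne : ∀ t, (A t).Nonempty := by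
    intro t
    obtain ⟨d, hd, -, hdt⟩ := hD (t - 1) t (by linarith)
    exact ⟨g d, d, ⟨hd, hdt.le⟩, rfl⟩
  have hbd : ∀ t, BddAbove (A t) := by
    intro t
    obtain ⟨d, hd, hdt, -⟩ := hD t (t + 1) (by linarith)
    refine ⟨g d, ?_⟩
    rintro _ ⟨e, ⟨he, het⟩, rfl⟩
    exact hgle e he d hd (le_trans het hdt.le)
  have hup : ∀ t, ∀ d ∈ D, t ≤ d → sSup (A t) ≤ g d := by
    intro t d hd htd
    apply csSup_le (hne t)
    rintro _ ⟨e, ⟨he, het⟩, rfl⟩
    exact hgle e he d hd (le_trans het htd)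
  have hlo : ∀ t, ∀ d ∈ D, d ≤ t → g d ≤ sSup (A t) := by
    intro t d hd hdt
    exact le_csSup (hbd t) ⟨d, ⟨hd, hdt⟩, rfl⟩
  have heq : ∀ d ∈ D, sSup (A d) = g d := fun d hd =>
    le_antisymm (hup d d hd le_rfl) (hlo d d hd le_rfl)
  have hmono : StrictMono (fun t => sSup (A t)) := by
    intro s t hst
    obtain ⟨d1, hd1, h1, h1'⟩ := hD s t hst
    obtain ⟨d2, hd2, h2, h2'⟩ := hD d1 t h1'
    calc sSup (A s) ≤ g d1 := hup s d1 hd1 h1.le
      _ < g d2 := hg d1 hd1 d2 hd2 h2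
      _ ≤ sSup (A t) := hlo t d2 hd2 h2'.le
  refine ⟨fun t => sSup (A t), hmono, ?_, heq⟩
  intro y
  let B : Set ℝ := {d | d ∈ D ∧ g d ≤ y}
  have hBne : B.Nonempty := by
    obtain ⟨d, hd, -, hdy⟩ := hR (y - 1) y (by linarith)
    exact ⟨d, hd, hdy.le⟩
  have hBbd : BddAbove B := by
    obtain ⟨e, he, hye, -⟩ := hR y (y + 1) (by linarith)
    refine ⟨e, ?_⟩
    rintro d ⟨hd, hdy⟩
    exact (hglt d hd e he (lt_of_le_of_lt hdy hye)).le
  refine ⟨sSup B, ?_⟩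
  apply le_antisymm
  · by_contra hc
    obtain ⟨d, hd, h1, h2⟩ := hR y _ (not_le.mp hc)
    have h3 : d < sSup B := by
      by_contra hc3
      have := hmono.monotone (not_lt.mp hc3)
      simp only [heq d hd] at this
      linarith
    obtain ⟨d', ⟨hd', hd'y⟩, hlt⟩ := exists_lt_of_lt_csSup hBne h3
    have := hg d hd d' hd' hlt
    linarith
  · by_contra hc
    obtain ⟨d, hd, h1, h2⟩ := hR _ y (not_le.mp hc)
    have h3 : d ≤ sSup B := le_csSup hBbd ⟨hd, h2.le⟩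
    have := hlo (sSup B) d hd h3
    simp only at h1
    linarith

theorem XE1 (h3 : BD3_stmt) (h4 : BD4_stmt) : XE1_stmt := by
  classical
  intro E h hh hE hI
  obtain ⟨a1, a2, a3, a4, a5, a6⟩ := h4
  -- two distinct points
  have hne01 : ∃ x y : Bd, x ≠ y := by
    refine ⟨bInf, bZero, ?_⟩
    intro hc
    obtain ⟨φ, p1, p2, p3, -, -⟩ := h3 bInf
    obtain ⟨a, ha, ha0⟩ := p1 0
    obtain ⟨b, hb, hb1⟩ := p1 1
    unfold bInf bZero at hc
    rw [Projectivization.mk_eq_mk_iff'] at hc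
    obtain ⟨c, hc⟩ := hc
    have := congrFun hc 0
    simp at this
  obtain ⟨x0, y0, hxy⟩ := hne01
  obtain ⟨e0, he0, -⟩ := hE x0 y0 hxy
  obtain ⟨φ, p1, p2, p3, p4, p5⟩ := h3 e0
  obtain ⟨ψ, q1, q2, q3, q4, q5⟩ := h3 (h e0)
  -- injectivity at e0
  have hhne : ∀ e ∈ E, e ≠ e0 → h e ≠ h e0 := by
    intro e he hne
    obtain ⟨z, hz, hcz⟩ := hE e0 e hne.symm
    exact (a1 _ _ _ (hh e0 he0 z hz e he hcz)).2.2
  -- inverse charts
  choose φi hφi using p1
  choose ψi hψi using q1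
  -- the dense set
  let D : Set ℝ := {t | φi t ∈ E}
  let g : ℝ → ℝ := fun t => ψ (h (φi t))
  have hφφ : ∀ a, a ≠ e0 → φi (φ a) = a := fun a ha => p2 _ _ (hφi _).1 ha (hφi _).2
  have hψψ : ∀ a, a ≠ h e0 → ψi (ψ a) = a := fun a ha => q2 _ _ (hψi _).1 ha (hψi _).2
  have hg : ∀ s ∈ D, ∀ t ∈ D, s < t → g s < g t := by
    intro s hs t ht hst
    have h1 : Cyc e0 (φi s) (φi t) := by
      rw [p3 _ _ (hφi s).1 (hφi t).1, (hφi s).2, (hφi t).2]; exact hst
    have h2 := hh e0 he0 _ hs _ ht h1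
    exact (q3 _ _ (hhne _ hs (hφi s).1) (hhne _ ht (hφi t).1)).mp h2
  have hD : ∀ s t : ℝ, s < t → ∃ d ∈ D, s < d ∧ d < t := by
    intro s t hst
    have h1 : Cyc e0 (φi s) (φi t) := by
      rw [p3 _ _ (hφi s).1 (hφi t).1, (hφi s).2, (hφi t).2]; exact hst
    obtain ⟨e, he, hce⟩ := hE (φi s) (φi t) (a1 _ _ _ h1).2.1
    -- e ≠ e0
    have hcc : Cyc (φi s) (φi t) e0 := a2 _ _ _ h1
    have hee : e ≠ e0 := by
      rintro rfl
      exact a3 _ _ _ hcc hce
    refine ⟨φ e, ?_, ?_⟩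
    · show φi (φ e) ∈ E
      rw [hφφ e hee]; exact he
    · have := (p4 _ _ _ (hφi s).1 hee (hφi t).1).mp hce
      rw [(hφi s).2, (hφi t).2] at this
      rcases this with ⟨u, v⟩ | ⟨u, v⟩ | ⟨u, v⟩
      · exact ⟨u, v⟩
      · linarith
      · linarith
  have hR : ∀ s t : ℝ, s < t → ∃ d ∈ D, s < g d ∧ g d < t := by
    intro s t hst
    have h1 : Cyc (h e0) (ψi s) (ψi t) := by
      rw [q3 _ _ (hψi s).1 (hψi t).1, (hψi s).2, (hψi t).2]; exact hst
    obtain ⟨e, he, hce⟩ := hI (ψi s) (ψi t) (a1 _ _ _ h1).2.1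
    have hcc : Cyc (ψi s) (ψi t) (h e0) := a2 _ _ _ h1
    have hee' : h e ≠ h e0 := by
      intro hc
      rw [hc] at hce
      exact a3 _ _ _ hcc hce
    have hee : e ≠ e0 := by
      rintro rfl
      exact hee' rfl
    refine ⟨φ e, ?_, ?_⟩
    · show φi (φ e) ∈ E
      rw [hφφ e hee]; exact he
    · have := (q4 _ _ _ (hψi s).1 hee' (hψi t).1).mp hce
      rw [(hψi s).2, (hψi t).2] at this
      have hgd : g (φ e) = ψ (h e) := by
        show ψ (h (φi (φ e))) = _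
        rw [hφφ e hee]
      rw [hgd]
      rcases this with ⟨u, v⟩ | ⟨u, v⟩ | ⟨u, v⟩
      · exact ⟨u, v⟩
      · linarith
      · linarith
  obtain ⟨G, hG, hGs, hGd⟩ := XE1_real D g hg hD hR
  -- the map
  let F : Bd → Bd := fun x => if x = e0 then h e0 else ψi (G (φ x))
  have hF0 : F e0 = h e0 := by simp [F]
  have hF1 : ∀ x, x ≠ e0 → F x = ψi (G (φ x)) := fun x hx => by simp [F, hx]
  have hFne : ∀ x, x ≠ e0 → F x ≠ h e0 := fun x hx => by rw [hF1 x hx]; exact (hψi _).1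
  have hFψ : ∀ x, x ≠ e0 → ψ (F x) = G (φ x) := fun x hx => by rw [hF1 x hx]; exact (hψi _).2
  have hinj : Function.Injective F := by
    intro x y hxy
    by_cases hx : x = e0
    · by_cases hy : y = e0
      · rw [hx, hy]
      · exact absurd (by rw [← hxy, hx, hF0]) (hFne y hy)
    · by_cases hy : y = e0
      · exact absurd (by rw [hxy, hy, hF0]) (hFne x hx)
      · have h1 := congrArg ψ hxy
        rw [hFψ x hx, hFψ y hy] at h1
        exact p2 _ _ hx hy (hG.injective h1)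
  have hsurj : Function.Surjective F := by
    intro y
    by_cases hy : y = h e0
    · exact ⟨e0, by rw [hF0, hy]⟩
    · obtain ⟨t, ht⟩ := hGs (ψ y)
      refine ⟨φi t, ?_⟩
      rw [hF1 _ (hφi t).1, (hφi t).2, ht, hψψ y hy]
  refine ⟨Equiv.ofBijective F ⟨hinj, hsurj⟩, ?_, ?_⟩
  · intro e he
    show F e = h e
    by_cases hee : e = e0
    · rw [hee, hF0]
    · have h1 : φ e ∈ D := by
        show φi (φ e) ∈ E
        rw [hφφ e hee]; exact he
      have h2 := hGd _ h1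
      rw [hF1 e hee, h2]
      show ψi (ψ (h (φi (φ e)))) = h e
      rw [hφφ e hee, hψψ _ (hhne e he hee)]
  · -- Cyc e0 a b is preserved
    have hbase : ∀ a b, Cyc e0 a b → Cyc (F e0) (F a) (F b) := by
      intro a b hc
      have hn := a1 _ _ _ hc
      have ha : a ≠ e0 := hn.1.symm
      have hb : b ≠ e0 := hn.2.2
      rw [hF0, q3 _ _ (hFne a ha) (hFne b hb), hFψ a ha, hFψ b hb]
      exact hG ((p3 _ _ ha hb).mp hc)
    intro x y z hc
    show Cyc (F x) (F y) (F z)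
    by_cases hx : x = e0
    · subst hx; exact hbase y z hc
    by_cases hy : y = e0
    · subst hy
      exact a2 _ _ _ (a2 _ _ _ (hbase z x (a2 _ _ _ hc)))
    by_cases hz : z = e0
    · subst hz
      exact a2 _ _ _ (hbase x y (a2 _ _ _ (a2 _ _ _ hc)))
    rw [q4 _ _ _ (hFne x hx) (hFne y hy) (hFne z hz), hFψ x hx, hFψ y hy, hFψ z hz]
    rcases (p4 _ _ _ hx hy hz).mp hc with ⟨u, v⟩ | ⟨u, v⟩ | ⟨u, v⟩
    · exact Or.inl ⟨hG u, hG v⟩
    · exact Or.inr (Or.inl ⟨hG u, hG v⟩)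
    · exact Or.inr (Or.inr ⟨hG u, hG v⟩)

end AdSBend
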