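import Pool.Agent.helper69.AD.GS6

/-!
XE2: uniqueness of the boundary map.
-/

open scoped MatrixGroups LinearAlgebra.Projectivization
open Matrix UpperHalfPlane

namespace AdSBend

theorem XE2_neg_smul (g : SL(2, ℝ)) (x : Bd) : (-g) • x = g • x := by
  induction x using Projectivization.ind with | _ v hv =>
  rw [Projectivization.smul_mk, Projectivization.smul_mk, Projectivization.mk_eq_mk_iff']
  refine ⟨-1, ?_⟩
  have e : (-g) • v = -(g • v) := by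
    change (-g).1 *ᵥ v = -(g.1 *ᵥ v)
    exact Matrix.neg_mulVec v g.1
  rw [e]
  exact neg_one_smul ℝ (g • v)

theorem XE2_peq_smul {g h : SL(2, ℝ)} (e : PEq g h) (x : Bd) : g • x = h • x := by
  rcases e with rfl | rfl
  · rfl
  · exact XE2_neg_smul h x

theorem XE2_a (h4 : BD4_stmt) : ∀ (E : Set Bd) (f f' : Bd ≃ Bd),
    (∀ x y, x ≠ y → ∃ e ∈ E, Cyc x e y) →
    (∀ x y z, Cyc x y z → Cyc (f x) (f y) (f z)) →
    (∀ x y z, Cyc x y z → Cyc (f' x) (f' y) (f' z)) → (∀ e ∈ E, f e = f' e) → f = f' := by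
  intro E f f' hE hf hf' hEE
  obtain ⟨a1, a2, a3, a4, a5, a6⟩ := h4
  ext x
  by_contra hne
  have hne : f x ≠ f' x := hne
  set y := f.symm (f' x) with hy
  have hfy : f y = f' x := by simp [hy]
  have hxy : x ≠ y := by
    intro hc
    apply hne
    rw [← hfy, ← hc]
  obtain ⟨e, he, h1⟩ := hE x y hxy
  obtain ⟨e2, he2, h2⟩ := hE y x hxy.symm
  have k1 := hf _ _ _ h1
  have k2 := hf _ _ _ h2
  rw [hfy] at k1 k2
  -- Cyc x e e2 in the source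
  have s1 : Cyc x y e2 := a2 _ _ _ (a2 _ _ _ h2)
  have s2 : Cyc x e e2 := (a5 x e y e2 h1 s1).1
  have k3 := hf' _ _ _ s2
  rw [← hEE e he, ← hEE e2 he2] at k3
  -- Cyc (f x) (f e) (f' x), Cyc (f' x) (f e2) (f x)
  have k4 : Cyc (f x) (f' x) (f e2) := a2 _ _ _ (a2 _ _ _ k2)
  have k5 := (a5 _ _ _ _ k1 k4).2
  -- Cyc (f e) (f' x) (f e2)
  exact a3 _ _ _ k3 (a2 _ _ _ k5)

theorem XE2 (h4 : BD4_stmt) (h8 : BD8_stmt) (h11 : BD11_stmt) (h0 : XE0_stmt)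
    (h2 : BD2_stmt) : XE2_stmt := by
  refine ⟨XE2_a h4, ?_⟩
  intro Γ hΓ f f' r r' g hf hf' hr x
  obtain ⟨b1, b2, b3, b4, b5, b6, b7, b8⟩ := h8
  have key := XE2_a h4 {c | ∃ γ ∈ Γ, ∃ p, Attracts γ p ∧ p.1 = c}
    f' (f.trans (MulAction.toPerm g)) ?_ hf'.1 ?_ ?_
  · rw [key]; rfl
  · intro x y hxy
    obtain ⟨γ, hγ, p, hp, hc⟩ := h0 Γ hΓ x y hxy
    exact ⟨p.1, ⟨γ, hγ, p, hp, rfl⟩, hc⟩
  · intro x y z hc
    exact (h2 g _ _ _).mpr (hf.1 _ _ _ hc)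
  · rintro _ ⟨γ, hγ, p, hp, rfl⟩
    have k1 := (h11 Γ f r hf).2.2.2.2.1 γ hγ p hp
    have k2 := (h11 Γ f' r' hf').2.2.2.2.1 γ hγ p hp
    have k3 := b6 _ g _ k1
    have k4 : Attracts (r' γ) (g • f p.1, g • f p.2) := by
      obtain ⟨u1, u2, u3, u4⟩ := k3
      refine ⟨u1, ?_, ?_, ?_⟩
      · rw [XE2_peq_smul (hr γ hγ)]; exact u2
      · rw [XE2_peq_smul (hr γ hγ)]; exact u3
      · intro c hc
        rw [XE2_peq_smul (hr γ hγ)]; exact u4 c hc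
    have k5 := b3 _ _ _ k2 k4
    exact congrArg Prod.fst k5

end AdSBend
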